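import Pool.Agent.Helper69.HG.Mol
import Pool.Agent.Helper69.HG.Rec
import Pool.Agent.Helper69.PQ.A0c

/-!
# Hall gaps: the limit of the block sums

`sI T σ i` = sum of `p^(-2σ)` over the primes `p ≤ T` of index `i`; it tends to the block integral
`Eb (i-1) (2x)` for `σ = 1/2 + x/log T`.  `TS u v` is the triple sum with block sums `u`, `v`.
-/

open Finset MeasureTheory Filter Topology Polynomial

namespace Pool.Agent.Helper51.HG

open Pool.Agent.Helper69.HG

/-- primes `p ≤ T` of index `i` -/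
noncomputable def PI (T : ℝ) (i : ℕ) : Finset ℕ := (Finset.Icc 1 ⌊T⌋₊).filter (fun p => p.Prime ∧ ixp T p = i)

/-- `∑ p^(-2σ)` over the primes `≤ T` of index `i` -/
noncomputable def sI (T σ : ℝ) (i : ℕ) : ℝ := ∑ p ∈ PI T i, (p : ℝ) ^ (-2 * σ)

/-- the triple sum with block sums `u` (gcd) and `v` (the two cofactors) -/
noncomputable def TS (u v : ℕ → ℝ) : ℝ :=
  ∑ a ∈ Finset.range 65, ∑ b ∈ Finset.range 65, ∑ c ∈ Finset.range 65, (Qz (a + b) : ℝ) * Qz (a + c) *
    (expc (blp fun j => kp ^ 2 * u j) a * expc (blp fun j => kp * v j) b * expc (blp fun j => kp * v j) c)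

lemma PI_eq {T : ℝ} (hT : 1 < T) (j : ℕ) : PI T (j + 1) = (Pool.Agent.Helper4.SH.PP T).filter (fun p =>
    (j : ℝ) / 160 < Pool.Agent.Helper4.SH.yy T p ∧ Pool.Agent.Helper4.SH.yy T p ≤ ((j : ℝ) + 1) / 160) := by
  have hL : 0 < Real.log T := Real.log_pos hT
  ext p
  unfold PI Pool.Agent.Helper4.SH.PP Pool.Agent.Helper4.SH.yy ixp
  simp only [mem_filter, Finset.mem_Icc, mem_range, Nat.lt_succ_iff]
  rw [Nat.ceil_eq_iff (Nat.succ_ne_zero j)]
  push_cast
  have h1 : ((j : ℝ) < 160 * Real.log p / Real.log T ↔ (j : ℝ) / 160 < Real.log p / Real.log T) := by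
    rw [mul_div_assoc, div_lt_iff₀ (by norm_num : (0:ℝ) < 160), mul_comm (160 : ℝ)]
  have h2 : (160 * Real.log p / Real.log T ≤ (j : ℝ) + 1 ↔ Real.log p / Real.log T ≤ ((j : ℝ) + 1) / 160) := by
    rw [mul_div_assoc, le_div_iff₀ (by norm_num : (0:ℝ) < 160), mul_comm (160 : ℝ)]
  rw [h1, h2]
  constructor
  · rintro ⟨⟨_, h⟩, hp, h3⟩
    exact ⟨⟨h, hp⟩, h3⟩
  · rintro ⟨⟨h, hp⟩, h3⟩
    exact ⟨⟨hp.one_lt.le, h⟩, hp, h3⟩

theorem tendsto_sI (x : ℝ) {j : ℕ} (h1 : 1 ≤ j) (h2 : j ≤ 159) :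
    Tendsto (fun T : ℝ => sI T (1 / 2 + x / Real.log T) (j + 1)) atTop (𝓝 (Eb j (2 * x))) := by
  have hj : (1 : ℝ) ≤ j := by exact_mod_cast h1
  have hj2 : (j : ℝ) ≤ 159 := by exact_mod_cast h2
  set a : ℝ := (j : ℝ) / 160 with ha
  have ha0 : 0 < a := by positivity
  have hmax : ∀ y : ℝ, 0 < max y a := fun y => lt_max_of_lt_right ha0
  have hψ : Continuous (fun y : ℝ => Real.exp (-(2 * x * y)) / max y a) :=
    (by fun_prop : Continuous (fun y : ℝ => Real.exp (-(2 * x * y)))).div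
      (continuous_id.max continuous_const) (fun y => (hmax y).ne')
  rw [Metric.tendsto_nhds]
  intro ε hε
  filter_upwards [Pool.Agent.Helper69.PQ.mert hψ ha0 (half_pos hε), eventually_gt_atTop (1 : ℝ)] with T hT hT1
  have hL : 0 < Real.log T := Real.log_pos hT1
  have h := hT a (((j : ℝ) + 1) / 160) le_rfl (by rw [ha]; gcongr; linarith) (by
    rw [div_le_one (by norm_num)]; linarith)
  rw [← ha] at *
  have hsum : ∑ p ∈ (Pool.Agent.Helper4.SH.PP T).filter (fun p => a < Pool.Agent.Helper4.SH.yy T p ∧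
      Pool.Agent.Helper4.SH.yy T p ≤ ((j : ℝ) + 1) / 160), Pool.Agent.Helper4.SH.yy T p / p *
        (Real.exp (-(2 * x * Pool.Agent.Helper4.SH.yy T p)) / max (Pool.Agent.Helper4.SH.yy T p) a) =
      sI T (1 / 2 + x / Real.log T) (j + 1) := by
    unfold sI
    rw [PI_eq hT1]
    refine Finset.sum_congr rfl fun p hp => ?_
    rw [mem_filter] at hp
    have hpp : p.Prime := by
      have := hp.1
      unfold Pool.Agent.Helper4.SH.PP at this
      exact (mem_filter.1 this).2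
    have hp0 : (0 : ℝ) < p := by exact_mod_cast hpp.pos
    have hy : a < Pool.Agent.Helper4.SH.yy T p := hp.2.1
    have hy0 : 0 < Pool.Agent.Helper4.SH.yy T p := ha0.trans hy
    rw [max_eq_left hy.le]
    have hlog : Real.log p = Pool.Agent.Helper4.SH.yy T p * Real.log T := by
      unfold Pool.Agent.Helper4.SH.yy
      field_simp
    have he : (p : ℝ) ^ (-2 * (1 / 2 + x / Real.log T)) =
        (p : ℝ)⁻¹ * Real.exp (-(2 * x * Pool.Agent.Helper4.SH.yy T p)) := by
      have : (-2 * (1 / 2 + x / Real.log T)) = -1 + -(2 * x / Real.log T) := by ring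
      rw [this, Real.rpow_add hp0, Real.rpow_neg_one, Real.rpow_def_of_pos hp0]
      congr 2
      rw [hlog]
      field_simp
    rw [he]
    field_simp
  have hint : ∫ y in a..(((j : ℝ) + 1) / 160), Real.exp (-(2 * x * y)) / max y a = Eb j (2 * x) := by
    unfold Eb
    refine intervalIntegral.integral_congr fun y hy => ?_
    have hle : a ≤ ((j : ℝ) + 1) / 160 := by
      rw [ha]
      exact div_le_div_of_nonneg_right (by linarith) (by norm_num)
    rw [Set.uIcc_of_le hle] at hy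
    have hy1 : max y a = y := max_eq_left hy.1
    show Real.exp (-(2 * x * y)) / max y a = _
    rw [hy1]
  rw [hsum, hint] at h
  rw [Real.dist_eq]
  exact lt_of_le_of_lt h (half_lt_self hε)

theorem tendsto_sI0 {j : ℕ} (h1 : 1 ≤ j) (h2 : j ≤ 159) :
    Tendsto (fun T : ℝ => sI T (1 / 2) (j + 1)) atTop (𝓝 (Eb j 0)) := by
  have := tendsto_sI 0 h1 h2
  simpa using this

/-- continuity of the exponential coefficients -/
theorem tendsto_expc {ι : Type*} {F : Filter ι} {u : ι → ℕ → ℝ} {u₀ : ℕ → ℝ}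
    (h : ∀ j, 1 ≤ j → j ≤ 31 → Tendsto (fun t => u t j) F (𝓝 (u₀ j))) (N : ℕ) :
    Tendsto (fun t => expc (blp (u t)) N) F (𝓝 (expc (blp u₀) N)) := by
  have hco : ∀ m, Tendsto (fun t => (blp (u t)).coeff m) F (𝓝 ((blp u₀).coeff m)) := by
    intro m
    simp only [blp_coeff]
    split_ifs with hm
    · exact h (m - 1) (by omega) (by omega)
    · exact tendsto_const_nhds
  have hrec : ∀ (w : ℕ → ℝ) (n : ℕ), expc (blp w) (n + 1) =
      (∑ m ∈ range (n + 1), ((m : ℝ) + 1) * (blp w).coeff (m + 1) * expc (blp w) (n - m)) / ((n : ℝ) + 1) := by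
    intro w n
    rw [← expc_rec (blp_zero w) n]
    have : ((n : ℝ) + 1) ≠ 0 := by positivity
    field_simp
  induction N using Nat.strong_induction_on with
  | _ N ih =>
    rcases N with _ | n
    · simp only [expc_zero]
      exact tendsto_const_nhds
    · simp only [hrec]
      refine Tendsto.div_const (tendsto_finsetSum _ fun m hm => ?_) _
      exact (tendsto_const_nhds.mul (hco (m + 1))).mul (ih (n - m) (by omega))

theorem tendsto_TS {ι : Type*} {F : Filter ι} {u v : ι → ℕ → ℝ} {u₀ v₀ : ℕ → ℝ}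
    (hu : ∀ j, 1 ≤ j → j ≤ 31 → Tendsto (fun t => u t j) F (𝓝 (u₀ j)))
    (hv : ∀ j, 1 ≤ j → j ≤ 31 → Tendsto (fun t => v t j) F (𝓝 (v₀ j))) :
    Tendsto (fun t => TS (u t) (v t)) F (𝓝 (TS u₀ v₀)) := by
  unfold TS
  refine tendsto_finsetSum _ fun a _ => tendsto_finsetSum _ fun b _ => tendsto_finsetSum _ fun c _ => ?_
  refine tendsto_const_nhds.mul (((tendsto_expc (fun j h1 h2 => ?_) a).mul
    (tendsto_expc (fun j h1 h2 => ?_) b)).mul (tendsto_expc (fun j h1 h2 => ?_) c))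
  · exact tendsto_const_nhds.mul (hu j h1 h2)
  · exact tendsto_const_nhds.mul (hv j h1 h2)
  · exact tendsto_const_nhds.mul (hv j h1 h2)

/-- the limit of `Ql` -/
theorem RSL_l (x : ℝ) :
    Tendsto (fun T : ℝ => TS (fun j => sI T (1 / 2 + x / Real.log T) (j + 1))
        (fun j => sI T (1 / 2 + x / Real.log T) (j + 1))) atTop
      (𝓝 (∑ a ∈ Finset.range 65, ∑ b ∈ Finset.range 65, ∑ c ∈ Finset.range 65, (Qz (a + b) : ℝ) * Qz (a + c) *
        (Gc (2 * x) a * Hc (2 * x) b * Hc (2 * x) c))) :=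
  tendsto_TS (u₀ := fun j => Eb j (2 * x)) (v₀ := fun j => Eb j (2 * x))
    (fun j h1 h2 => tendsto_sI x h1 (by omega)) (fun j h1 h2 => tendsto_sI x h1 (by omega))

/-- the limit of `Qg` -/
theorem RSL_g (x : ℝ) :
    Tendsto (fun T : ℝ => TS (fun j => sI T (1 / 2 + x / Real.log T) (j + 1))
        (fun j => sI T (1 / 2) (j + 1))) atTop
      (𝓝 (∑ a ∈ Finset.range 65, ∑ b ∈ Finset.range 65, ∑ c ∈ Finset.range 65, (Qz (a + b) : ℝ) * Qz (a + c) *
        (Gc (2 * x) a * Hc 0 b * Hc 0 c))) :=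
  tendsto_TS (u₀ := fun j => Eb j (2 * x)) (v₀ := fun j => Eb j 0)
    (fun j h1 h2 => tendsto_sI x h1 (by omega)) (fun j h1 h2 => tendsto_sI0 h1 (by omega))

end Pool.Agent.Helper51.HG
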