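import Pool.Agent.Helper51.HG.RSE
import Pool.Agent.Helper77.HG.RSC

/-!
# Hall gaps: block RS
-/

namespace Pool.Agent.Helper51.HG

open Pool.Agent.Helper69.HG

/-- **block RS** -/
theorem rs : RS :=
  rs_of (fun _ hT σ => Pool.Agent.Helper77.HG.Ql_pair77 hT σ) (fun _ hT σ => Pool.Agent.Helper77.HG.Qg_pair77 hT σ)

end Pool.Agent.Helper51.HG
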