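import Pool.Agent.Helper51.HG.WT
import Pool.Agent.Helper69.HG.Stm

/-!
# Hall gaps: block RS from the two identities of RSC
-/

open Finset Filter Topology Polynomial

namespace Pool.Agent.Helper51.HG

open Pool.Agent.Helper69.HG

lemma Qz_zero {N : ℕ} (h : 65 ≤ N) : Qz N = 0 := by
  unfold Qz
  exact List.getD_eq_default _ _ (le_trans (by decide) h)

/-- a bound of the weights -/
noncomputable def KQ : ℝ := ∑ n ∈ range 65, |(Qz n : ℝ)|

lemma KQ_nonneg : 0 ≤ KQ := Finset.sum_nonneg fun _ _ => abs_nonneg _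

lemma Qz_le (N : ℕ) : |(Qz N : ℝ)| ≤ KQ := by
  rcases lt_or_ge N 65 with h | h
  · exact Finset.single_le_sum (f := fun n => |(Qz n : ℝ)|) (fun _ _ => abs_nonneg _) (mem_range.2 h)
  · rw [Qz_zero h]; simpa using KQ_nonneg

lemma FQ_le (a b c : ℕ) : |FQ a b c| ≤ KQ ^ 2 := by
  unfold FQ
  rw [abs_mul, sq]
  exact mul_le_mul (Qz_le _) (Qz_le _) (abs_nonneg _) KQ_nonneg

lemma FQ_box : Box FQ := by
  intro a b c h
  unfold FQ
  rcases h with h | h | h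
  · rw [Qz_zero (by omega : 65 ≤ a + b)]; simp
  · rw [Qz_zero (by omega : 65 ≤ a + b)]; simp
  · rw [Qz_zero (by omega : 65 ≤ a + c)]; simp

/-- grouping by the index -/
lemma sum_AA {M : Type*} [AddCommMonoid M] (T : ℝ) (f : ℕ → M) :
    ∑ p ∈ AA T, f p = ∑ j ∈ Finset.Icc 1 31, ∑ p ∈ PI T (j + 1), f p := by
  have h := Finset.sum_fiberwise_of_maps_to (s := AA T) (t := Finset.Icc 1 31) (g := fun p => ixp T p - 1)
    (fun p hp => by
      unfold AA at hp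
      have := (Finset.mem_filter.1 hp).2.2
      rw [Finset.mem_Icc]
      omega) f
  rw [← h]
  refine Finset.sum_congr rfl fun j hj => ?_
  rw [Finset.mem_Icc] at hj
  congr 1
  ext p
  unfold AA PI
  simp only [Finset.mem_filter]
  constructor
  · rintro ⟨⟨h1, h2, h3, h4⟩, h5⟩
    exact ⟨h1, h2, by omega⟩
  · rintro ⟨h1, h2, h3⟩
    exact ⟨⟨h1, h2, by omega, by omega⟩, by omega⟩

lemma EP_AA (T k σ : ℝ) : EP (AA T) (ixp T) (fun p => k * (p : ℝ) ^ (-2 * σ)) =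
    blp (fun j => k * sI T σ (j + 1)) := by
  unfold EP blp
  rw [sum_AA]
  refine Finset.sum_congr rfl fun j _ => ?_
  unfold sI
  dsimp only
  rw [Finset.mul_sum, map_sum, Finset.sum_mul]
  refine Finset.sum_congr rfl fun p hp => ?_
  unfold PI at hp
  rw [(Finset.mem_filter.1 hp).2.2]

lemma PS_AA (T σ τ : ℝ) : PS (EP (AA T) (ixp T) (fun p => kp ^ 2 * (p : ℝ) ^ (-2 * σ)))
    (EP (AA T) (ixp T) (fun p => kp * (p : ℝ) ^ (-2 * τ))) (EP (AA T) (ixp T) (fun p => kp * (p : ℝ) ^ (-2 * τ))) FQ =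
    TS (fun j => sI T σ (j + 1)) (fun j => sI T τ (j + 1)) := by
  rw [EP_AA, EP_AA]
  rfl

/-- size of the primes -/
lemma AA_size {T : ℝ} (hT : 1 < T) {p : ℕ} (hp : p ∈ AA T) : p.Prime ∧ T ^ (1 / 160 : ℝ) < p := by
  unfold AA at hp
  obtain ⟨_, hpp, h2, _⟩ := Finset.mem_filter.1 hp
  refine ⟨hpp, ?_⟩
  have hL : 0 < Real.log T := Real.log_pos hT
  have hp0 : (0 : ℝ) < p := by exact_mod_cast hpp.pos
  unfold ixp at h2
  have h3 : (1 : ℝ) < 160 * Real.log p / Real.log T := by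
    have := Nat.lt_ceil.1 (lt_of_lt_of_le (by norm_num : 1 < 2) h2)
    simpa using this
  rw [lt_div_iff₀ hL, one_mul] at h3
  rw [Real.rpow_def_of_pos (by linarith)]
  exact (Real.lt_log_iff_exp_lt hp0).1 (by linarith)

/-- the sum of the reciprocals is bounded -/
lemma AA_bdd : ∃ B : ℝ, 0 ≤ B ∧ ∀ᶠ T : ℝ in atTop, ∑ p ∈ AA T, 1 / (p : ℝ) ≤ B := by
  have h : Tendsto (fun T : ℝ => ∑ j ∈ Finset.Icc 1 31, sI T (1 / 2) (j + 1)) atTop
      (𝓝 (∑ j ∈ Finset.Icc 1 31, Eb j 0)) := by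
    refine tendsto_finsetSum _ fun j hj => ?_
    rw [Finset.mem_Icc] at hj
    exact tendsto_sI0 hj.1 (by omega)
  refine ⟨|∑ j ∈ Finset.Icc 1 31, Eb j 0| + 1, by positivity, ?_⟩
  filter_upwards [h.eventually_lt_const (u := |∑ j ∈ Finset.Icc 1 31, Eb j 0| + 1)
    (by linarith [le_abs_self (∑ j ∈ Finset.Icc 1 31, Eb j 0)])] with T hT
  rw [sum_AA]
  refine le_trans (le_of_eq ?_) hT.le
  refine Finset.sum_congr rfl fun j _ => ?_
  unfold sI
  refine Finset.sum_congr rfl fun p _ => ?_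
  have : (-2 * (1 / 2) : ℝ) = -1 := by norm_num
  rw [this, Real.rpow_neg_one, one_div]

/-- **comparison, uniform in the exponents** -/
theorem comparison : ∃ e : ℝ → ℝ, Tendsto e atTop (𝓝 0) ∧ ∀ᶠ T : ℝ in atTop, ∀ σ τ : ℝ, 1 / 2 ≤ σ → 1 / 2 ≤ τ →
    |pairS (AA T) (ixp T) (fun p => kp ^ 2 * (p : ℝ) ^ (-2 * σ)) (fun p => kp * (p : ℝ) ^ (-2 * τ)) FQ -
      TS (fun j => sI T σ (j + 1)) (fun j => sI T τ (j + 1))| ≤ e T := by
  obtain ⟨B, hB0, hB⟩ := AA_bdd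
  refine ⟨fun T => KQ ^ 2 * Real.exp (3 * (3 * B)) * (9 * (9 * B)) * (T ^ (1 / 160 : ℝ))⁻¹, ?_, ?_⟩
  · have h1 : Tendsto (fun T : ℝ => (T ^ (1 / 160 : ℝ))⁻¹) atTop (𝓝 0) :=
      (tendsto_rpow_atTop (by norm_num)).inv_tendsto_atTop
    simpa using h1.const_mul (KQ ^ 2 * Real.exp (3 * (3 * B)) * (9 * (9 * B)))
  · filter_upwards [hB, eventually_gt_atTop (1 : ℝ),
      (tendsto_rpow_atTop (by norm_num : (0 : ℝ) < 1 / 160)).eventually_ge_atTop 9] with T hBT hT h9 σ τ hσ hτ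
    have hkp : kp = 8 / 5 := rfl
    have hsz : ∀ p ∈ AA T, p.Prime ∧ T ^ (1 / 160 : ℝ) < p := fun p hp => AA_size hT hp
    have hpow : ∀ p ∈ AA T, ∀ s : ℝ, 1 / 2 ≤ s → 0 ≤ (p : ℝ) ^ (-2 * s) ∧ (p : ℝ) ^ (-2 * s) ≤ 1 / p := by
      intro p hp s hs
      have hp1 : (1 : ℝ) ≤ p := by exact_mod_cast (hsz p hp).1.one_lt.le
      have hp0 : (0 : ℝ) < p := by linarith
      refine ⟨by positivity, ?_⟩
      rw [one_div, ← Real.rpow_neg_one]
      exact Real.rpow_le_rpow_of_exponent_le hp1 (by linarith)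
    have h := pair_vs_prod (ixp T) (fun p => kp ^ 2 * (p : ℝ) ^ (-2 * σ)) (fun p => kp * (p : ℝ) ^ (-2 * τ))
      (fun p => 3 / p) (AA T)
      (fun p hp => by
        unfold AA at hp
        have := (Finset.mem_filter.1 hp).2.2.1
        omega)
      (fun p hp => by
        obtain ⟨h1, h2⟩ := hpow p hp σ hσ
        obtain ⟨h3, h4⟩ := hpow p hp τ hτ
        have hp9 : (9 : ℝ) < p := h9.trans_lt (hsz p hp).2
        have hp0 : (0 : ℝ) < p := by linarith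
        have e3 : (3 : ℝ) / p = 3 * (1 / p) := by ring
        refine ⟨by rw [hkp]; positivity, ?_, by rw [hkp]; positivity, ?_, ?_⟩
        · rw [hkp, e3]; nlinarith
        · rw [hkp, e3]; nlinarith
        · rw [← mul_div_assoc, div_le_one hp0]; linarith)
      FQ (KQ ^ 2) (sq_nonneg _) FQ_le FQ_box
    rw [PS_AA] at h
    refine h.trans ?_
    have hs1 : ∑ p ∈ AA T, (3 : ℝ) / p ≤ 3 * B := by
      have : ∑ p ∈ AA T, (3 : ℝ) / p = 3 * ∑ p ∈ AA T, 1 / (p : ℝ) := by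
        rw [Finset.mul_sum]
        exact Finset.sum_congr rfl fun p _ => by ring
      rw [this]; linarith
    have hs2 : ∑ p ∈ AA T, ((3 : ℝ) / p) ^ 2 ≤ 9 * B * (T ^ (1 / 160 : ℝ))⁻¹ := by
      have h1 : ∀ p ∈ AA T, ((3 : ℝ) / p) ^ 2 ≤ 9 * (T ^ (1 / 160 : ℝ))⁻¹ * (1 / p) := by
        intro p hp
        have h2 := (hsz p hp).2
        have h3 : 0 < T ^ (1 / 160 : ℝ) := by positivity
        have hp0 : (0 : ℝ) < p := h3.trans h2
        have h4 : (p : ℝ)⁻¹ ≤ (T ^ (1 / 160 : ℝ))⁻¹ := inv_anti₀ h3 h2.le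
        have h5 : (0 : ℝ) < (p : ℝ)⁻¹ := inv_pos.2 hp0
        have e1 : ((3 : ℝ) / p) ^ 2 = 9 * (p : ℝ)⁻¹ * (p : ℝ)⁻¹ := by
          rw [div_eq_mul_inv]; ring
        have e2 : (1 : ℝ) / p = (p : ℝ)⁻¹ := one_div _
        rw [e1, e2]
        refine mul_le_mul_of_nonneg_right ?_ h5.le
        exact mul_le_mul_of_nonneg_left h4 (by norm_num)
      refine (Finset.sum_le_sum h1).trans ?_
      rw [← Finset.mul_sum]
      have h3 : 0 ≤ 9 * (T ^ (1 / 160 : ℝ))⁻¹ := by positivity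
      calc 9 * (T ^ (1 / 160 : ℝ))⁻¹ * ∑ p ∈ AA T, 1 / (p : ℝ) ≤ 9 * (T ^ (1 / 160 : ℝ))⁻¹ * B :=
            mul_le_mul_of_nonneg_left hBT h3
        _ = _ := by ring
    have hs3 : 0 ≤ ∑ p ∈ AA T, ((3 : ℝ) / p) ^ 2 := Finset.sum_nonneg fun _ _ => sq_nonneg _
    calc KQ ^ 2 * Real.exp (3 * ∑ p ∈ AA T, (3 : ℝ) / p) * (9 * ∑ p ∈ AA T, ((3 : ℝ) / p) ^ 2)
        ≤ KQ ^ 2 * Real.exp (3 * (3 * B)) * (9 * (9 * B * (T ^ (1 / 160 : ℝ))⁻¹)) := by
          gcongr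
      _ = _ := by ring

/-- **block RS from the identities** -/
theorem rs_of
    (hl : ∀ T : ℝ, 1 < T → ∀ σ : ℝ, Ql (XR T) (rr T) σ = pairS (AA T) (ixp T)
      (fun p => kp ^ 2 * (p : ℝ) ^ (-2 * σ)) (fun p => kp * (p : ℝ) ^ (-2 * σ)) FQ)
    (hg : ∀ T : ℝ, 1 < T → ∀ σ : ℝ, Qg (XR T) (rr T) σ = pairS (AA T) (ixp T)
      (fun p => kp ^ 2 * (p : ℝ) ^ (-2 * σ)) (fun p => kp * (p : ℝ) ^ (-2 * (1 / 2 : ℝ))) FQ) : RS := by
  obtain ⟨e, he, hc⟩ := comparison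
  intro x hx
  have hσ : ∀ T : ℝ, 1 < T → (1 / 2 : ℝ) ≤ 1 / 2 + x / Real.log T := fun T hT => by
    have := Real.log_pos hT
    have : 0 ≤ x / Real.log T := by positivity
    linarith
  constructor
  · have h0 : Tendsto (fun T : ℝ => Ql (XR T) (rr T) (1 / 2 + x / Real.log T) -
        TS (fun j => sI T (1 / 2 + x / Real.log T) (j + 1)) (fun j => sI T (1 / 2 + x / Real.log T) (j + 1)))
        atTop (𝓝 0) := by
      refine squeeze_zero_norm' ?_ he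
      filter_upwards [hc, eventually_gt_atTop (1 : ℝ)] with T hT h1
      rw [hl T h1, Real.norm_eq_abs]
      exact hT _ _ (hσ T h1) (hσ T h1)
    have := h0.add (RSL_l x)
    simpa using this
  · have h0 : Tendsto (fun T : ℝ => Qg (XR T) (rr T) (1 / 2 + x / Real.log T) -
        TS (fun j => sI T (1 / 2 + x / Real.log T) (j + 1)) (fun j => sI T (1 / 2) (j + 1)))
        atTop (𝓝 0) := by
      refine squeeze_zero_norm' ?_ he
      filter_upwards [hc, eventually_gt_atTop (1 : ℝ)] with T hT h1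
      rw [hg T h1, Real.norm_eq_abs]
      exact hT _ _ (hσ T h1) le_rfl
    have := h0.add (RSL_g x)
    simpa using this

end Pool.Agent.Helper51.HG
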