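import Pool.Agent.Helper69.HG.Mol

/-!
# Hall gaps: the sum over pairs of subsets (definitions)
-/

open Finset

namespace Pool.Agent.Helper51.HG

open Pool.Agent.Helper69.HG

/-- the sum over pairs of subsets -/
noncomputable def pairS (A : Finset ℕ) (ind : ℕ → ℕ) (u v : ℕ → ℝ) (F : ℕ → ℕ → ℕ → ℝ) : ℝ :=
  ∑ S ∈ A.powerset, ∑ S' ∈ A.powerset,
    F (∑ p ∈ S ∩ S', ind p) (∑ p ∈ S \ S', ind p) (∑ p ∈ S' \ S, ind p) *
      ((∏ p ∈ S ∩ S', u p) * (∏ p ∈ S \ S', v p) * ∏ p ∈ S' \ S, v p)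

/-- the primes of the resonator -/
noncomputable def AA (T : ℝ) : Finset ℕ :=
  (Finset.Icc 1 ⌊T⌋₊).filter (fun p => p.Prime ∧ 2 ≤ ixp T p ∧ ixp T p ≤ 32)

/-- the weights -/
noncomputable def FQ (a b c : ℕ) : ℝ := (Qz (a + b) : ℝ) * Qz (a + c)

end Pool.Agent.Helper51.HG
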