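import Pool.Agent.Helper51.HG.RSL
import Pool.Agent.Helper51.HG.WD

/-!
# Hall gaps: sums over pairs of squarefree numbers against the exponential series

`pairS` is the sum over pairs of subsets of a finite set of primes, `PS` the triple sum with the exponential
coefficients; `pair_vs_prod` compares them, with an error `∑ w_p²`.
-/

open Finset Filter Topology Polynomial

namespace Pool.Agent.Helper51.HG

open Pool.Agent.Helper69.HG

/-- the triple sum -/
noncomputable def PS (P Q R : ℝ[X]) (F : ℕ → ℕ → ℕ → ℝ) : ℝ :=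
  ∑ a ∈ range 65, ∑ b ∈ range 65, ∑ c ∈ range 65, F a b c * (expc P a * expc Q b * expc R c)

/-- `∑_{p ∈ A} u_p X^(ind p)` -/
noncomputable def EP (A : Finset ℕ) (ind : ℕ → ℕ) (u : ℕ → ℝ) : ℝ[X] := ∑ p ∈ A, C (u p) * X ^ (ind p)

/-- the one-prime operator -/
def DF (i : ℕ) (u v : ℝ) (F : ℕ → ℕ → ℕ → ℝ) : ℕ → ℕ → ℕ → ℝ := fun a b c =>
  F a b c + u * F (a + i) b c + v * F a (b + i) c + v * F a b (c + i)

lemma pairS_empty (ind : ℕ → ℕ) (u v : ℕ → ℝ) (F : ℕ → ℕ → ℕ → ℝ) : pairS ∅ ind u v F = F 0 0 0 := by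
  simp [pairS]

lemma pairS_insert {A : Finset ℕ} {q : ℕ} (hq : q ∉ A) (ind : ℕ → ℕ) (u v : ℕ → ℝ) (F : ℕ → ℕ → ℕ → ℝ) :
    pairS (insert q A) ind u v F = pairS A ind u v (DF (ind q) (u q) (v q) F) := by
  unfold pairS
  rw [Finset.sum_powerset_insert hq, ← Finset.sum_add_distrib]
  refine Finset.sum_congr rfl fun S hS => ?_
  rw [Finset.sum_powerset_insert hq, Finset.sum_powerset_insert hq, ← Finset.sum_add_distrib,
    ← Finset.sum_add_distrib, ← Finset.sum_add_distrib]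
  refine Finset.sum_congr rfl fun S' hS' => ?_
  have h1 : q ∉ S := fun h => hq (mem_powerset.1 hS h)
  have h2 : q ∉ S' := fun h => hq (mem_powerset.1 hS' h)
  have e1 : insert q S ∩ S' = S ∩ S' := insert_inter_of_notMem h2
  have e2 : insert q S \ S' = insert q (S \ S') := insert_sdiff_of_notMem _ h2
  have e3 : S' \ insert q S = S' \ S := by
    ext x; simp only [Finset.mem_sdiff, mem_insert, not_or]
    constructor
    · rintro ⟨h, _, h3⟩; exact ⟨h, h3⟩
    · rintro ⟨h, h3⟩; exact ⟨h, fun h4 => h2 (h4 ▸ h), h3⟩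
  have e4 : S ∩ insert q S' = S ∩ S' := inter_insert_of_notMem h1
  have e5 : S \ insert q S' = S \ S' := by
    ext x; simp only [Finset.mem_sdiff, mem_insert, not_or]
    constructor
    · rintro ⟨h, _, h3⟩; exact ⟨h, h3⟩
    · rintro ⟨h, h3⟩; exact ⟨h, fun h4 => h1 (h4 ▸ h), h3⟩
  have e6 : insert q S' \ S = insert q (S' \ S) := insert_sdiff_of_notMem _ h1
  have e7 : insert q S ∩ insert q S' = insert q (S ∩ S') := (insert_inter_distrib _ _ _).symm
  have e8 : insert q S \ insert q S' = S \ S' := by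
    rw [insert_sdiff_of_mem _ (mem_insert_self _ _), e5]
  have e9 : insert q S' \ insert q S = S' \ S := by
    rw [insert_sdiff_of_mem _ (mem_insert_self _ _), e3]
  have n1 : q ∉ S \ S' := fun h => h1 (Finset.mem_sdiff.1 h).1
  have n2 : q ∉ S' \ S := fun h => h2 (Finset.mem_sdiff.1 h).1
  have n3 : q ∉ S ∩ S' := fun h => h1 (mem_inter.1 h).1
  rw [e1, e2, e3, e4, e5, e6, e7, e8, e9, sum_insert n1, sum_insert n2, sum_insert n3, prod_insert n1,
    prod_insert n2, prod_insert n3]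
  unfold DF
  rw [add_comm (ind q) (∑ p ∈ S \ S', ind p), add_comm (ind q) (∑ p ∈ S' \ S, ind p),
    add_comm (ind q) (∑ p ∈ S ∩ S', ind p)]
  ring

/-! ### exponential coefficients -/

lemma coeff_pow_mul_pow {P Q : ℝ[X]} (hP : P.coeff 0 = 0) (hQ : Q.coeff 0 = 0) {m n N : ℕ} (h : N < m + n) :
    (P ^ m * Q ^ n).coeff N = 0 := by
  obtain ⟨p, hp⟩ := X_dvd_iff.2 hP
  obtain ⟨q, hq⟩ := X_dvd_iff.2 hQ
  have : P ^ m * Q ^ n = (p ^ m * q ^ n) * X ^ (m + n) := by
    rw [hp, hq]; ring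
  rw [this, coeff_mul_X_pow', if_neg (by omega)]

lemma expc_add {P Q : ℝ[X]} (hP : P.coeff 0 = 0) (hQ : Q.coeff 0 = 0) (N : ℕ) :
    expc (P + Q) N = ∑ ij ∈ antidiagonal N, expc P ij.1 * expc Q ij.2 := by
  have hL : expc (P + Q) N = ∑ k ∈ range (N + 1), ∑ m ∈ range (k + 1),
      (P ^ m * Q ^ (k - m)).coeff N / ((m.factorial : ℝ) * ((k - m).factorial : ℝ)) := by
    unfold expc
    refine Finset.sum_congr rfl fun k _ => ?_
    rw [add_pow, finsetSum_coeff, Finset.sum_div]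
    refine Finset.sum_congr rfl fun m hm => ?_
    have hm' : m ≤ k := by rw [mem_range] at hm; omega
    rw [coeff_mul_natCast, Nat.cast_choose ℝ hm']
    have h1 : (k.factorial : ℝ) ≠ 0 := by exact_mod_cast Nat.factorial_ne_zero k
    have h2 : (m.factorial : ℝ) ≠ 0 := by exact_mod_cast Nat.factorial_ne_zero m
    have h3 : ((k - m).factorial : ℝ) ≠ 0 := by exact_mod_cast Nat.factorial_ne_zero (k - m)
    field_simp
  have hR : ∑ ij ∈ antidiagonal N, expc P ij.1 * expc Q ij.2 = ∑ m ∈ range (N + 1), ∑ n ∈ range (N + 1),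
      (P ^ m * Q ^ n).coeff N / ((m.factorial : ℝ) * (n.factorial : ℝ)) := by
    have : ∀ ij ∈ antidiagonal N, expc P ij.1 * expc Q ij.2 = ∑ m ∈ range (N + 1), ∑ n ∈ range (N + 1),
        (P ^ m).coeff ij.1 * (Q ^ n).coeff ij.2 / ((m.factorial : ℝ) * (n.factorial : ℝ)) := by
      intro ij hij
      have h := Finset.HasAntidiagonal.mem_antidiagonal.1 hij
      rw [expc_eq hP (by omega : ij.1 ≤ N), expc_eq hQ (by omega : ij.2 ≤ N), Finset.sum_mul_sum]
      refine Finset.sum_congr rfl fun m _ => Finset.sum_congr rfl fun n _ => ?_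
      rw [div_mul_div_comm]
    rw [Finset.sum_congr rfl this, Finset.sum_comm]
    refine Finset.sum_congr rfl fun m _ => ?_
    rw [Finset.sum_comm]
    refine Finset.sum_congr rfl fun n _ => ?_
    rw [← Finset.sum_div, coeff_mul]
  rw [hL, hR, Finset.sum_range_diag_flip (N + 1)
    (fun m n => (P ^ m * Q ^ n).coeff N / ((m.factorial : ℝ) * (n.factorial : ℝ)))]
  refine Finset.sum_congr rfl fun m hm => ?_
  refine Finset.sum_subset (range_mono (by omega)) fun n hn hn' => ?_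
  rw [mem_range] at hn hn' hm
  rw [coeff_pow_mul_pow hP hQ (by omega), zero_div]

/-- adding one monomial -/
lemma expc_add_monomial {P : ℝ[X]} (hP : P.coeff 0 = 0) (w : ℝ) {i : ℕ} (hi : 1 ≤ i) {n : ℕ} (hn : n < 65) :
    expc (P + C w * X ^ i) n = ∑ l ∈ range 65, if l * i ≤ n then w ^ l / l.factorial * expc P (n - l * i) else 0 := by
  have hQ : (C w * X ^ i : ℝ[X]).coeff 0 = 0 := by
    rw [coeff_C_mul_X_pow, if_neg (by omega)]
  rw [expc_add hP hQ]
  have h : ∀ ij ∈ antidiagonal n, expc P ij.1 * expc (C w * X ^ i) ij.2 =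
      ∑ l ∈ range 65, if ij.2 = l * i then expc P ij.1 * (w ^ l / l.factorial) else 0 := by
    intro ij hij
    have hij' := Finset.HasAntidiagonal.mem_antidiagonal.1 hij
    rw [expc_eq hQ (by omega : ij.2 ≤ 64), Finset.mul_sum]
    refine Finset.sum_congr rfl fun l _ => ?_
    rw [mul_pow, ← C_pow, ← pow_mul, coeff_C_mul_X_pow, mul_comm i l]
    split_ifs <;> simp
  rw [Finset.sum_congr rfl h, Finset.sum_comm]
  refine Finset.sum_congr rfl fun l _ => ?_
  split_ifs with hl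
  · rw [Finset.sum_eq_single (n - l * i, l * i)]
    · rw [if_pos rfl]; ring
    · intro b hb hb'
      rw [if_neg]
      intro h1
      have := Finset.HasAntidiagonal.mem_antidiagonal.1 hb
      apply hb'
      ext
      · show b.1 = n - l * i
        omega
      · exact h1
    · intro hb
      exact absurd (Finset.HasAntidiagonal.mem_antidiagonal.2 (by omega)) hb
  · refine Finset.sum_eq_zero fun b hb => ?_
    have := Finset.HasAntidiagonal.mem_antidiagonal.1 hb
    rw [if_neg (by omega)]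

/-- pairing with a function supported in `[0, 64]` -/
lemma pairing {P : ℝ[X]} (hP : P.coeff 0 = 0) (w : ℝ) {i : ℕ} (hi : 1 ≤ i) (φ : ℕ → ℝ) (hφ : ∀ n, 65 ≤ n → φ n = 0) :
    ∑ n ∈ range 65, φ n * expc (P + C w * X ^ i) n =
      ∑ l ∈ range 65, w ^ l / l.factorial * ∑ n ∈ range 65, φ (n + l * i) * expc P n := by
  have h1 : ∀ n ∈ range 65, φ n * expc (P + C w * X ^ i) n = ∑ l ∈ range 65, w ^ l / l.factorial *
      (if l * i ≤ n then φ n * expc P (n - l * i) else 0) := by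
    intro n hn
    rw [expc_add_monomial hP w hi (mem_range.1 hn), Finset.mul_sum]
    refine Finset.sum_congr rfl fun l _ => ?_
    split_ifs <;> ring
  rw [Finset.sum_congr rfl h1, Finset.sum_comm]
  refine Finset.sum_congr rfl fun l _ => ?_
  rw [← Finset.mul_sum]
  congr 1
  have h2 : ∑ n ∈ range 65, (if l * i ≤ n then φ n * expc P (n - l * i) else 0) =
      ∑ n ∈ range (l * i + 65), (if l * i ≤ n then φ n * expc P (n - l * i) else 0) := by
    refine Finset.sum_subset (range_mono (by omega)) fun n _ hn => ?_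
    rw [mem_range, not_lt] at hn
    rw [hφ n hn, zero_mul, ite_self]
  rw [h2, Finset.sum_range_add]
  have h3 : ∑ x ∈ range (l * i), (if l * i ≤ x then φ x * expc P (x - l * i) else 0) = 0 := by
    refine Finset.sum_eq_zero fun x hx => ?_
    rw [mem_range] at hx
    rw [if_neg (by omega)]
  rw [h3, zero_add]
  refine Finset.sum_congr rfl fun n _ => ?_
  rw [if_pos (by omega), Nat.add_sub_cancel_left, add_comm (l * i) n]

lemma expc_zero_poly (n : ℕ) : expc (0 : ℝ[X]) n = if n = 0 then 1 else 0 := by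
  unfold expc
  rw [Finset.sum_eq_single 0]
  · simp [coeff_one]
  · intro k _ hk
    rw [zero_pow hk]; simp
  · simp

lemma EP_empty (ind : ℕ → ℕ) (u : ℕ → ℝ) : EP ∅ ind u = 0 := by simp [EP]

lemma EP_insert {A : Finset ℕ} {q : ℕ} (hq : q ∉ A) (ind : ℕ → ℕ) (u : ℕ → ℝ) :
    EP (insert q A) ind u = EP A ind u + C (u q) * X ^ (ind q) := by
  unfold EP; rw [sum_insert hq, add_comm]

lemma EP_coeff {A : Finset ℕ} {ind : ℕ → ℕ} (hind : ∀ p ∈ A, 1 ≤ ind p) (u : ℕ → ℝ) : (EP A ind u).coeff 0 = 0 := by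
  unfold EP
  rw [finsetSum_coeff]
  refine Finset.sum_eq_zero fun p hp => ?_
  have := hind p hp
  rw [coeff_C_mul_X_pow, if_neg (by omega)]

lemma EP_nonneg {A : Finset ℕ} {ind : ℕ → ℕ} (hind : ∀ p ∈ A, 1 ≤ ind p) {u : ℕ → ℝ} (hu : ∀ p ∈ A, 0 ≤ u p) :
    ∀ n, n < 65 → 0 ≤ expc (EP A ind u) n := by
  induction A using Finset.induction_on with
  | empty =>
    intro n _
    rw [EP_empty, expc_zero_poly]
    split_ifs <;> norm_num
  | insert q A hq ih =>
    intro n hn
    have hind' : ∀ p ∈ A, 1 ≤ ind p := fun p hp => hind p (mem_insert_of_mem hp)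
    have ih' := ih hind' (fun p hp => hu p (mem_insert_of_mem hp))
    rw [EP_insert hq, expc_add_monomial (EP_coeff hind' u) _ (hind q (mem_insert_self _ _)) hn]
    refine Finset.sum_nonneg fun l _ => ?_
    split_ifs with hl
    · exact mul_nonneg (div_nonneg (pow_nonneg (hu q (mem_insert_self _ _)) _) (by positivity))
        (ih' _ (by omega))
    · exact le_rfl

lemma sum_exp_le {w : ℝ} (hw : 0 ≤ w) (n : ℕ) : ∑ l ∈ range n, w ^ l / (l.factorial : ℝ) ≤ Real.exp w :=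
  Real.sum_le_exp_of_nonneg hw n

lemma EP_sum {A : Finset ℕ} {ind : ℕ → ℕ} (hind : ∀ p ∈ A, 1 ≤ ind p) {u : ℕ → ℝ} (hu : ∀ p ∈ A, 0 ≤ u p) :
    ∑ n ∈ range 65, expc (EP A ind u) n ≤ Real.exp (∑ p ∈ A, u p) := by
  induction A using Finset.induction_on with
  | empty =>
    rw [EP_empty]
    simp [expc_zero_poly]
  | insert q A hq ih =>
    have hind' : ∀ p ∈ A, 1 ≤ ind p := fun p hp => hind p (mem_insert_of_mem hp)
    have hu' : ∀ p ∈ A, 0 ≤ u p := fun p hp => hu p (mem_insert_of_mem hp)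
    have hi := hind q (mem_insert_self _ _)
    have huq := hu q (mem_insert_self _ _)
    have h := pairing (EP_coeff hind' u) (u q) hi (fun n => if n < 65 then (1 : ℝ) else 0)
      (fun n hn => by rw [if_neg (by omega)])
    have h1 : ∑ n ∈ range 65, expc (EP (insert q A) ind u) n =
        ∑ n ∈ range 65, (if n < 65 then (1 : ℝ) else 0) * expc (EP A ind u + C (u q) * X ^ ind q) n := by
      rw [EP_insert hq]
      refine Finset.sum_congr rfl fun n hn => ?_
      rw [if_pos (mem_range.1 hn), one_mul]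
    rw [h1, h, Finset.sum_insert hq, Real.exp_add]
    calc ∑ l ∈ range 65, u q ^ l / (l.factorial : ℝ) *
          ∑ n ∈ range 65, (if n + l * ind q < 65 then (1 : ℝ) else 0) * expc (EP A ind u) n
        ≤ ∑ l ∈ range 65, u q ^ l / (l.factorial : ℝ) * Real.exp (∑ p ∈ A, u p) := by
          refine Finset.sum_le_sum fun l _ => mul_le_mul_of_nonneg_left ?_ (by positivity)
          refine le_trans (Finset.sum_le_sum fun n hn => ?_) (ih hind' hu')
          have h0 := EP_nonneg hind' hu' n (mem_range.1 hn)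
          split_ifs
          · rw [one_mul]
          · rw [zero_mul]; exact h0
      _ = (∑ l ∈ range 65, u q ^ l / (l.factorial : ℝ)) * Real.exp (∑ p ∈ A, u p) := by
          rw [Finset.sum_mul]
      _ ≤ Real.exp (u q) * Real.exp (∑ p ∈ A, u p) :=
          mul_le_mul_of_nonneg_right (sum_exp_le huq 65) (Real.exp_pos _).le

/-! ### the triple sum -/

/-- the support condition -/
def Box (F : ℕ → ℕ → ℕ → ℝ) : Prop := ∀ a b c, 65 ≤ a ∨ 65 ≤ b ∨ 65 ≤ c → F a b c = 0

lemma PS_add_one {P Q R : ℝ[X]} (hP : P.coeff 0 = 0) (w : ℝ) {i : ℕ} (hi : 1 ≤ i) {F : ℕ → ℕ → ℕ → ℝ} (hF : Box F) :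
    PS (P + C w * X ^ i) Q R F = ∑ l ∈ range 65, w ^ l / l.factorial * PS P Q R (fun a b c => F (a + l * i) b c) := by
  have h := pairing hP w hi (fun a => ∑ b ∈ range 65, ∑ c ∈ range 65, F a b c * (expc Q b * expc R c))
    (fun n hn => Finset.sum_eq_zero fun b _ => Finset.sum_eq_zero fun c _ => by
      rw [hF n b c (Or.inl hn), zero_mul])
  have e1 : PS (P + C w * X ^ i) Q R F = ∑ n ∈ range 65, (∑ b ∈ range 65, ∑ c ∈ range 65,
      F n b c * (expc Q b * expc R c)) * expc (P + C w * X ^ i) n := by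
    unfold PS
    refine Finset.sum_congr rfl fun a _ => ?_
    rw [Finset.sum_mul]
    refine Finset.sum_congr rfl fun b _ => ?_
    rw [Finset.sum_mul]
    refine Finset.sum_congr rfl fun c _ => ?_
    ring
  rw [e1, h]
  refine Finset.sum_congr rfl fun l _ => ?_
  congr 1
  unfold PS
  refine Finset.sum_congr rfl fun a _ => ?_
  rw [Finset.sum_mul]
  refine Finset.sum_congr rfl fun b _ => ?_
  rw [Finset.sum_mul]
  refine Finset.sum_congr rfl fun c _ => ?_
  ring

lemma PS_swap12 (P Q R : ℝ[X]) (F : ℕ → ℕ → ℕ → ℝ) : PS P Q R F = PS Q P R (fun a b c => F b a c) := by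
  unfold PS
  rw [Finset.sum_comm]
  refine Finset.sum_congr rfl fun a _ => Finset.sum_congr rfl fun b _ => Finset.sum_congr rfl fun c _ => ?_
  ring

lemma PS_swap13 (P Q R : ℝ[X]) (F : ℕ → ℕ → ℕ → ℝ) : PS P Q R F = PS R Q P (fun a b c => F c b a) := by
  unfold PS
  have : ∀ a ∈ range 65, ∑ b ∈ range 65, ∑ c ∈ range 65, F a b c * (expc P a * expc Q b * expc R c) =
      ∑ c ∈ range 65, ∑ b ∈ range 65, F a b c * (expc P a * expc Q b * expc R c) := fun a _ => Finset.sum_comm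
  rw [Finset.sum_congr rfl this, Finset.sum_comm]
  refine Finset.sum_congr rfl fun a _ => ?_
  rw [Finset.sum_comm]
  refine Finset.sum_congr rfl fun b _ => Finset.sum_congr rfl fun c _ => ?_
  ring

lemma PS_add_two {P Q R : ℝ[X]} (hQ : Q.coeff 0 = 0) (w : ℝ) {i : ℕ} (hi : 1 ≤ i) {F : ℕ → ℕ → ℕ → ℝ} (hF : Box F) :
    PS P (Q + C w * X ^ i) R F = ∑ l ∈ range 65, w ^ l / l.factorial * PS P Q R (fun a b c => F a (b + l * i) c) := by
  have hF' : Box (fun a b c => F b a c) := fun a b c h => hF b a c (by tauto)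
  rw [PS_swap12, PS_add_one hQ w hi hF']
  refine Finset.sum_congr rfl fun l _ => ?_
  rw [PS_swap12 Q P R]

lemma PS_add_three {P Q R : ℝ[X]} (hR : R.coeff 0 = 0) (w : ℝ) {i : ℕ} (hi : 1 ≤ i) {F : ℕ → ℕ → ℕ → ℝ} (hF : Box F) :
    PS P Q (R + C w * X ^ i) F = ∑ l ∈ range 65, w ^ l / l.factorial * PS P Q R (fun a b c => F a b (c + l * i)) := by
  have hF' : Box (fun a b c => F c b a) := fun a b c h => hF c b a (by tauto)
  rw [PS_swap13, PS_add_one hR w hi hF']
  refine Finset.sum_congr rfl fun l _ => ?_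
  rw [PS_swap13 R Q P]

lemma PS_add_all {P Q R : ℝ[X]} (hP : P.coeff 0 = 0) (hQ : Q.coeff 0 = 0) (hR : R.coeff 0 = 0) (u v : ℝ) {i : ℕ}
    (hi : 1 ≤ i) {F : ℕ → ℕ → ℕ → ℝ} (hF : Box F) :
    PS (P + C u * X ^ i) (Q + C v * X ^ i) (R + C v * X ^ i) F =
      ∑ t ∈ range 65 ×ˢ (range 65 ×ˢ range 65), (u ^ t.1 / t.1.factorial * (v ^ t.2.1 / t.2.1.factorial *
        (v ^ t.2.2 / t.2.2.factorial))) * PS P Q R (fun a b c => F (a + t.1 * i) (b + t.2.1 * i) (c + t.2.2 * i)) := by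
  rw [PS_add_one hP u hi hF, Finset.sum_product]
  refine Finset.sum_congr rfl fun l _ => ?_
  have hF1 : Box (fun a b c => F (a + l * i) b c) := fun a b c h => hF _ _ _ (by omega)
  rw [PS_add_two hQ v hi hF1, Finset.sum_product, Finset.mul_sum]
  refine Finset.sum_congr rfl fun m _ => ?_
  have hF2 : Box (fun a b c => F (a + l * i) (b + m * i) c) := fun a b c h => hF _ _ _ (by omega)
  rw [PS_add_three hR v hi hF2, Finset.mul_sum, Finset.mul_sum]
  refine Finset.sum_congr rfl fun n _ => ?_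
  ring

lemma PS_bound {P Q R : ℝ[X]} (hP : ∀ n < 65, 0 ≤ expc P n) (hQ : ∀ n < 65, 0 ≤ expc Q n) (hR : ∀ n < 65, 0 ≤ expc R n)
    {F : ℕ → ℕ → ℕ → ℝ} {M : ℝ} (hF : ∀ a b c, |F a b c| ≤ M) :
    |PS P Q R F| ≤ M * ((∑ n ∈ range 65, expc P n) * ((∑ n ∈ range 65, expc Q n) * ∑ n ∈ range 65, expc R n)) := by
  unfold PS
  have e : M * ((∑ n ∈ range 65, expc P n) * ((∑ n ∈ range 65, expc Q n) * ∑ n ∈ range 65, expc R n)) =
      ∑ a ∈ range 65, ∑ b ∈ range 65, ∑ c ∈ range 65, M * (expc P a * expc Q b * expc R c) := by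
    rw [Finset.sum_mul, Finset.mul_sum]
    refine Finset.sum_congr rfl fun a _ => ?_
    rw [Finset.sum_mul, Finset.mul_sum, Finset.mul_sum]
    refine Finset.sum_congr rfl fun b _ => ?_
    rw [Finset.mul_sum, Finset.mul_sum, Finset.mul_sum]
    refine Finset.sum_congr rfl fun c _ => ?_
    ring
  rw [e]
  refine (Finset.abs_sum_le_sum_abs _ _).trans (Finset.sum_le_sum fun a ha => ?_)
  refine (Finset.abs_sum_le_sum_abs _ _).trans (Finset.sum_le_sum fun b hb => ?_)
  refine (Finset.abs_sum_le_sum_abs _ _).trans (Finset.sum_le_sum fun c hc => ?_)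
  have h1 := hP a (mem_range.1 ha)
  have h2 := hQ b (mem_range.1 hb)
  have h3 := hR c (mem_range.1 hc)
  rw [abs_mul, abs_of_nonneg (by positivity : 0 ≤ expc P a * expc Q b * expc R c)]
  exact mul_le_mul_of_nonneg_right (hF a b c) (by positivity)

lemma PS_DF (P Q R : ℝ[X]) (i : ℕ) (u v : ℝ) (F : ℕ → ℕ → ℕ → ℝ) :
    PS P Q R (DF i u v F) = PS P Q R F + u * PS P Q R (fun a b c => F (a + i) b c) +
      v * PS P Q R (fun a b c => F a (b + i) c) + v * PS P Q R (fun a b c => F a b (c + i)) := by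
  unfold PS DF
  simp only [Finset.mul_sum, ← Finset.sum_add_distrib]
  refine Finset.sum_congr rfl fun a _ => Finset.sum_congr rfl fun b _ => Finset.sum_congr rfl fun c _ => ?_
  ring

/-- the four main terms -/
def F4 : Finset (ℕ × ℕ × ℕ) := {(0, 0, 0), (1, 0, 0), (0, 1, 0), (0, 0, 1)}

lemma sum_F4 (f : ℕ × ℕ × ℕ → ℝ) : ∑ t ∈ F4, f t = f (0, 0, 0) + f (1, 0, 0) + f (0, 1, 0) + f (0, 0, 1) := by
  unfold F4
  rw [sum_insert (by decide), sum_insert (by decide), sum_insert (by decide), sum_singleton]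
  ring

/-- the coefficients -/
noncomputable def co (u v : ℝ) (t : ℕ × ℕ × ℕ) : ℝ :=
  u ^ t.1 / t.1.factorial * (v ^ t.2.1 / t.2.1.factorial * (v ^ t.2.2 / t.2.2.factorial))

lemma co_nonneg {u v : ℝ} (hu : 0 ≤ u) (hv : 0 ≤ v) (t : ℕ × ℕ × ℕ) : 0 ≤ co u v t := by
  unfold co; positivity

lemma co_sum {u v : ℝ} (hu : 0 ≤ u) (hv : 0 ≤ v) (n : ℕ) :
    ∑ t ∈ range n ×ˢ (range n ×ˢ range n), co u v t ≤ Real.exp (u + 2 * v) := by
  have e : ∑ t ∈ range n ×ˢ (range n ×ˢ range n), co u v t = (∑ l ∈ range n, u ^ l / (l.factorial : ℝ)) *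
      ((∑ l ∈ range n, v ^ l / (l.factorial : ℝ)) * ∑ l ∈ range n, v ^ l / (l.factorial : ℝ)) := by
    rw [Finset.sum_product, Finset.sum_mul]
    refine Finset.sum_congr rfl fun l _ => ?_
    rw [Finset.sum_product, Finset.sum_mul, Finset.mul_sum]
    refine Finset.sum_congr rfl fun m _ => ?_
    rw [Finset.mul_sum, Finset.mul_sum]
    rfl
  have e2 : Real.exp (u + 2 * v) = Real.exp u * (Real.exp v * Real.exp v) := by
    rw [← Real.exp_add, ← Real.exp_add]; ring_nf
  rw [e, e2]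
  have g1 := sum_exp_le hu n
  have g2 := sum_exp_le hv n
  have g3 : 0 ≤ ∑ l ∈ range n, v ^ l / (l.factorial : ℝ) := Finset.sum_nonneg fun l _ => by positivity
  gcongr

lemma F4_sub {n : ℕ} (hn : 2 ≤ n) : F4 ⊆ range n ×ˢ (range n ×ˢ range n) := by
  intro t ht
  unfold F4 at ht
  simp only [mem_insert, mem_singleton] at ht
  simp only [Finset.mem_product, mem_range]
  rcases ht with rfl | rfl | rfl | rfl <;> refine ⟨?_, ?_, ?_⟩ <;> dsimp only <;> omega

lemma step_core {B : Finset (ℕ × ℕ × ℕ)} (hsub : F4 ⊆ B) {u v w : ℝ} (hu : 0 ≤ u) (huw : u ≤ w) (hv : 0 ≤ v)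
    (hvw : v ≤ w) (hw : 3 * w ≤ 1) (hB : ∑ t ∈ B, co u v t ≤ Real.exp (u + 2 * v)) {G : ℕ × ℕ × ℕ → ℝ} {K : ℝ}
    (hK : 0 ≤ K) (hG : ∀ t, |G t| ≤ K) :
    |∑ t ∈ F4, co u v t * G t - ∑ t ∈ B, co u v t * G t| ≤ K * (9 * w ^ 2) := by
  rw [← Finset.sum_sdiff hsub, sub_add_cancel_right, abs_neg]
  have h1 : |∑ t ∈ B \ F4, co u v t * G t| ≤ (∑ t ∈ B \ F4, co u v t) * K := by
    rw [Finset.sum_mul]
    refine (Finset.abs_sum_le_sum_abs _ _).trans (Finset.sum_le_sum fun t _ => ?_)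
    rw [abs_mul, abs_of_nonneg (co_nonneg hu hv t)]
    exact mul_le_mul_of_nonneg_left (hG t) (co_nonneg hu hv t)
  have h2 : ∑ t ∈ B \ F4, co u v t = ∑ t ∈ B, co u v t - ∑ t ∈ F4, co u v t := by
    rw [← Finset.sum_sdiff hsub]; ring
  have h3 : ∑ t ∈ F4, co u v t = 1 + (u + 2 * v) := by
    rw [sum_F4]
    simp [co]
    ring
  have h5 : Real.exp (u + 2 * v) - (1 + (u + 2 * v)) ≤ 9 * w ^ 2 := by
    have hx : |u + 2 * v| ≤ 1 := by rw [abs_of_nonneg (by positivity)]; linarith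
    have := (abs_le.1 (Real.abs_exp_sub_one_sub_id_le hx)).2
    have h6 : (u + 2 * v) ^ 2 ≤ 9 * w ^ 2 := by nlinarith
    linarith
  calc |∑ t ∈ B \ F4, co u v t * G t|
      ≤ (∑ t ∈ B \ F4, co u v t) * K := h1
    _ ≤ 9 * w ^ 2 * K := by
        refine mul_le_mul_of_nonneg_right ?_ hK
        rw [h2, h3]; linarith
    _ = K * (9 * w ^ 2) := by ring

/-- one step: the error of the linear approximation -/
lemma step_bound {P Q R : ℝ[X]} (hP0 : P.coeff 0 = 0) (hQ0 : Q.coeff 0 = 0) (hR0 : R.coeff 0 = 0)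
    (hP : ∀ n < 65, 0 ≤ expc P n) (hQ : ∀ n < 65, 0 ≤ expc Q n) (hR : ∀ n < 65, 0 ≤ expc R n)
    {u v w : ℝ} (hu : 0 ≤ u) (huw : u ≤ w) (hv : 0 ≤ v) (hvw : v ≤ w) (hw : 3 * w ≤ 1) {i : ℕ} (hi : 1 ≤ i)
    {F : ℕ → ℕ → ℕ → ℝ} (hF : Box F) {M S : ℝ} (hM : 0 ≤ M) (hS : 0 ≤ S) (hFM : ∀ a b c, |F a b c| ≤ M)
    (hsum : (∑ n ∈ range 65, expc P n) * ((∑ n ∈ range 65, expc Q n) * ∑ n ∈ range 65, expc R n) ≤ S) :
    |PS P Q R (DF i u v F) - PS (P + C u * X ^ i) (Q + C v * X ^ i) (R + C v * X ^ i) F| ≤ M * S * (9 * w ^ 2) := by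
  have hmain : PS P Q R (DF i u v F) = ∑ t ∈ F4, co u v t *
      PS P Q R (fun a b c => F (a + t.1 * i) (b + t.2.1 * i) (c + t.2.2 * i)) := by
    rw [sum_F4, PS_DF]
    simp [co]
  rw [PS_add_all hP0 hQ0 hR0 u v hi hF, hmain]
  exact step_core (F4_sub (by norm_num)) hu huw hv hvw hw (co_sum hu hv 65) (mul_nonneg hM hS)
    (G := fun t => PS P Q R (fun a b c => F (a + t.1 * i) (b + t.2.1 * i) (c + t.2.2 * i)))
    (fun t => (PS_bound hP hQ hR (fun a b c => hFM _ _ _)).trans (mul_le_mul_of_nonneg_left hsum hM))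

/-- **pairs of subsets against the exponential series** -/
theorem pair_vs_prod (ind : ℕ → ℕ) (u v w : ℕ → ℝ) (A : Finset ℕ) :
    (∀ p ∈ A, 1 ≤ ind p) → (∀ p ∈ A, 0 ≤ u p ∧ u p ≤ w p ∧ 0 ≤ v p ∧ v p ≤ w p ∧ 3 * w p ≤ 1) →
    ∀ (F : ℕ → ℕ → ℕ → ℝ) (M : ℝ), 0 ≤ M → (∀ a b c, |F a b c| ≤ M) → Box F →
    |pairS A ind u v F - PS (EP A ind u) (EP A ind v) (EP A ind v) F| ≤
      M * Real.exp (3 * ∑ p ∈ A, w p) * (9 * ∑ p ∈ A, w p ^ 2) := by
  induction A using Finset.induction_on with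
  | empty =>
    intro _ _ F M hM hFM hF
    rw [pairS_empty, EP_empty, EP_empty]
    have : PS 0 0 0 F = F 0 0 0 := by
      unfold PS
      simp only [expc_zero_poly]
      rw [Finset.sum_eq_single 0, Finset.sum_eq_single 0, Finset.sum_eq_single 0]
      · simp
      · intro c _ hc; rw [if_neg hc]; simp
      · simp
      · intro b _ hb; simp [hb]
      · simp
      · intro a _ ha; simp [ha]
      · simp
    rw [this, sub_self, abs_zero]
    simp
  | insert q A hq ih =>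
    intro hind hb F M hM hFM hF
    have hind' : ∀ p ∈ A, 1 ≤ ind p := fun p hp => hind p (mem_insert_of_mem hp)
    have hb' := fun p hp => hb p (mem_insert_of_mem hp)
    obtain ⟨hu0, huw, hv0, hvw, hw1⟩ := hb q (mem_insert_self _ _)
    have hi := hind q (mem_insert_self _ _)
    have hw0 : 0 ≤ w q := hu0.trans huw
    have hwA : 0 ≤ ∑ p ∈ A, w p := Finset.sum_nonneg fun p hp => (hb' p hp).1.trans (hb' p hp).2.1
    have hwA2 : 0 ≤ ∑ p ∈ A, w p ^ 2 := Finset.sum_nonneg fun p hp => sq_nonneg _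
    set E := Real.exp (3 * ∑ p ∈ A, w p) with hE
    have hE0 : 0 < E := Real.exp_pos _
    have hDM : ∀ a b c, |DF (ind q) (u q) (v q) F a b c| ≤ M * (1 + 3 * w q) := by
      intro a b c
      unfold DF
      have t1 := hFM a b c
      have t2 : |u q * F (a + ind q) b c| ≤ w q * M := by
        rw [abs_mul, abs_of_nonneg hu0]; exact mul_le_mul huw (hFM _ _ _) (abs_nonneg _) hw0
      have t3 : |v q * F a (b + ind q) c| ≤ w q * M := by
        rw [abs_mul, abs_of_nonneg hv0]; exact mul_le_mul hvw (hFM _ _ _) (abs_nonneg _) hw0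
      have t4 : |v q * F a b (c + ind q)| ≤ w q * M := by
        rw [abs_mul, abs_of_nonneg hv0]; exact mul_le_mul hvw (hFM _ _ _) (abs_nonneg _) hw0
      refine (abs_add_le _ _).trans ?_
      have := abs_add_le (F a b c + u q * F (a + ind q) b c) (v q * F a (b + ind q) c)
      have := abs_add_le (F a b c) (u q * F (a + ind q) b c)
      linarith
    have hDB : Box (DF (ind q) (u q) (v q) F) := by
      intro a b c h
      unfold DF
      rw [hF a b c h, hF (a + ind q) b c (by omega), hF a (b + ind q) c (by omega), hF a b (c + ind q) (by omega)]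
      ring
    have h1 := ih hind' hb' (DF (ind q) (u q) (v q) F) (M * (1 + 3 * w q)) (by positivity) hDM hDB
    have hsum : (∑ n ∈ range 65, expc (EP A ind u) n) * ((∑ n ∈ range 65, expc (EP A ind v) n) *
        ∑ n ∈ range 65, expc (EP A ind v) n) ≤ E := by
      have g1 := EP_sum hind' (u := u) (fun p hp => (hb' p hp).1)
      have g2 := EP_sum hind' (u := v) (fun p hp => (hb' p hp).2.2.1)
      have g3 : 0 ≤ ∑ n ∈ range 65, expc (EP A ind v) n :=
        Finset.sum_nonneg fun n hn => EP_nonneg hind' (fun p hp => (hb' p hp).2.2.1) n (mem_range.1 hn)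
      have g4 : Real.exp (∑ p ∈ A, u p) ≤ Real.exp (∑ p ∈ A, w p) :=
        Real.exp_le_exp.2 (Finset.sum_le_sum fun p hp => (hb' p hp).2.1)
      have g5 : Real.exp (∑ p ∈ A, v p) ≤ Real.exp (∑ p ∈ A, w p) :=
        Real.exp_le_exp.2 (Finset.sum_le_sum fun p hp => (hb' p hp).2.2.2.1)
      calc _ ≤ Real.exp (∑ p ∈ A, w p) * (Real.exp (∑ p ∈ A, w p) * Real.exp (∑ p ∈ A, w p)) := by
            have g6 := g2.trans g5
            have g7 := g1.trans g4
            gcongr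
        _ = E := by rw [hE, ← Real.exp_add, ← Real.exp_add]; ring_nf
    have h2 := step_bound (EP_coeff hind' u) (EP_coeff hind' v) (EP_coeff hind' v)
      (EP_nonneg hind' (fun p hp => (hb' p hp).1)) (EP_nonneg hind' (fun p hp => (hb' p hp).2.2.1))
      (EP_nonneg hind' (fun p hp => (hb' p hp).2.2.1)) hu0 huw hv0 hvw hw1 hi hF hM hE0.le hFM hsum
    rw [pairS_insert hq, EP_insert hq, EP_insert hq, Finset.sum_insert hq, Finset.sum_insert hq]
    have h3 : Real.exp (3 * (w q + ∑ p ∈ A, w p)) = Real.exp (3 * w q) * E := by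
      rw [hE, ← Real.exp_add]; ring_nf
    have h4 : 1 + 3 * w q ≤ Real.exp (3 * w q) := by linarith [Real.add_one_le_exp (3 * w q)]
    have h5 : (1 : ℝ) ≤ Real.exp (3 * w q) := by linarith
    rw [h3]
    have h6 := abs_add_le (pairS A ind u v (DF (ind q) (u q) (v q) F) -
      PS (EP A ind u) (EP A ind v) (EP A ind v) (DF (ind q) (u q) (v q) F))
      (PS (EP A ind u) (EP A ind v) (EP A ind v) (DF (ind q) (u q) (v q) F) -
      PS (EP A ind u + C (u q) * X ^ ind q) (EP A ind v + C (v q) * X ^ ind q) (EP A ind v + C (v q) * X ^ ind q) F)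
    rw [sub_add_sub_cancel] at h6
    refine h6.trans ((add_le_add h1 h2).trans ?_)
    have h7 : M * (1 + 3 * w q) * E * (9 * ∑ p ∈ A, w p ^ 2) ≤ M * (Real.exp (3 * w q) * E) * (9 * ∑ p ∈ A, w p ^ 2) := by
      have : M * (1 + 3 * w q) * E ≤ M * (Real.exp (3 * w q) * E) := by
        rw [mul_assoc]
        exact mul_le_mul_of_nonneg_left (mul_le_mul_of_nonneg_right h4 hE0.le) hM
      exact mul_le_mul_of_nonneg_right this (by positivity)
    have h8 : M * E * (9 * w q ^ 2) ≤ M * (Real.exp (3 * w q) * E) * (9 * w q ^ 2) := by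
      have : M * E ≤ M * (Real.exp (3 * w q) * E) :=
        mul_le_mul_of_nonneg_left (le_mul_of_one_le_left hE0.le h5) hM
      exact mul_le_mul_of_nonneg_right this (by positivity)
    calc _ ≤ M * (Real.exp (3 * w q) * E) * (9 * ∑ p ∈ A, w p ^ 2) + M * (Real.exp (3 * w q) * E) * (9 * w q ^ 2) :=
          add_le_add h7 h8
      _ = _ := by ring

end Pool.Agent.Helper51.HG
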